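import Mathlib
import Pool.Agent.Work.MP_a2680c_ag.HA.MainV

/-! # Question Q1 for finite quotients and Galois forms of weighted hyperplane arrangements, every base

For lc-trivial fibrations `(X, D) → Z` over an algebraically closed field `k` of infinite transcendence degree over the rational
numbers (for instance the field of complex numbers), of any dimension, with coefficients of `D` in a DCC set `I` of real numbers,
whose generic fibre has a crepant Galois cover by a weighted hyperplane arrangement: `K`, `F` are the
function fields of `Z`, `X`; `K'/K` and `F'/F` are finite Galois extensions of degree at most `δ`, `F' = K'(y_1, ..., y_n)`, and the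
projective space `P` over `K'` with coordinates `y` and boundary `Σ d_i H_i`, `H_i` hyperplanes over `K'`, `d_i ∈ I`, is a
crepant cover of the generic fibre in the birational sense: every prime divisor `ν'` of `P` lies over a divisor `ν` over `X`, with
ramification index `ε`, and `1 - ε A`, `A` the log discrepancy of `ν` (`1 - D ν` if `ν` is a divisor on `X`), is the sum of the
`d_i` with `H_i = ν'`.  Then all of (a), (b), (c), (d) of Q1 hold, in the klt and in the lc version, for EVERY normal base `Z`, with a DCC set `J` which depends only on `n`, `δ` and `I`, with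
`Γ = {1}`, `m = 1` and `D_mod = 0`: there is an effective divisor `D_Z` with coefficients in `J` such that `(Z, D_Z)` is klt (lc) and
`K_X + D ~ f^* (K_Z + D_Z)`, on all models.

Proof.  `D_Z` is the discriminant plus general members of the free linear systems (with coefficients from a finite set) in which
the moduli part is decomposed (see the file `FiniteQuotients`): `- M D_mod v = Σ_i w_i min_(s ∈ S_i) v(s)`, `σ_i = Σ_(s ∈ S_i) t_(i,s) s`
with general constants `t_(i,s) ∈ k`.  The main point is the inequality `Σ_i (v(σ_i) - min_(s ∈ S_i) v(s)) ≤ 1 - D_div v` for ALL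
divisors `v` over `Z`; it is proved without resolution of singularities.  There are an endomorphism `ι` of the field `k` and an
endomorphism `I` of `K` over it which fixes the finitely many functions that occur, such that the `t_(i,s)` are
independent over `ι(k)`.  The derivations of `k` over `ι(k)` dual to the `t_(i,s)` lift to derivations of `K` which are logarithmic at
`v`.  A determinant of logarithmic derivatives in the coordinates and the `σ_i / s_i` shows that the log
discrepancy of `v` is at least the one of the valuation `v ∘ I` plus `Σ_i (v(σ_i) - v(s_i))`, `s_i ∈ S_i` of least value; so `v ∘ I` is trivial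
or a multiple `ε w` of a divisor `w` over `Z`, and `1 - D_div v ≥ ε (1 - D_div w) + Σ_i (v(σ_i) - v(s_i))`. -/

set_option autoImplicit false

namespace Pool.Agent.Work.MP_a2680c_ag.Kept.EffectiveAdjunction

open Pool.Agent.Work.MP_a2680c_ag.HA

universe u

theorem result (n δ : ℕ) (hn : 1 ≤ n) (hδ : 1 ≤ δ) (I : Set ℝ) (hI : I ⊆ Set.Ioc 0 1) (hD : DCC I) :
    ∃ J : Set ℝ, J ⊆ Set.Ioc 0 1 ∧ DCC J ∧
      ∀ (κ : Prop) (k K F K' F' : Type u) [Field k] [CharZero k] [Field K] [Field F] [Field K'] [Field F'] [Algebra k K]
        [Algebra k F] [Algebra k K'] [Algebra k F'] [Algebra K F] [Algebra K K'] [Algebra K F'] [Algebra F F'] [Algebra K' F']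
        [IsScalarTower k K F] [IsScalarTower k K K'] [IsScalarTower k F F'] [IsScalarTower k K' F'] [IsScalarTower K F F']
        [IsScalarTower K K' F'] [FiniteDimensional K K'] [IsGalois K K'] [FiniteDimensional F F'] [IsGalois F F']
        [IsAlgClosed k]
        (e N : ℕ) (r : Fin e → K) (x : Fin n → F) (y : Fin n → F') (Z : Set (Subalgebra k K)) (X : Set (Subalgebra k F))
        (D : AddValuation F (WithTop ℤ) → ℝ) (L : AddValuation K (WithTop ℤ) → ℝ) (a : Fin N → Fin (n + 1) → K')
        (d : Fin N → ℝ), Cardinal.aleph0 ≤ Algebra.trdeg ℚ k →
        Fib κ I r x Z X D L → Cvb δ I r x y X D a d →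
        ∃ Dd : AddValuation K (WithTop ℤ) → ℝ, Q1 κ J {1} 1 r x Z X D Dd (fun _ => 0) :=
  mainVR.{u} n δ hn hδ I hI hD

end Pool.Agent.Work.MP_a2680c_ag.Kept.EffectiveAdjunction
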