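import Mathlib
import Pool.Agent.Work.MP_a2680c_ag.HA.MainV

/-! # Weak effective adjunction for fibrations in finite quotients and Galois forms of weighted hyperplane arrangements

Question Q1, in the klt and in the lc version, for all lc-trivial fibrations `(X, D) → Z` (any dimension, coefficients of `D` in
a DCC set `I` of real numbers) whose generic fibre has a crepant Galois cover by a weighted hyperplane arrangement: `K`, `F` are the
function fields of `Z`, `X`; `K'/K` and `F'/F` are finite Galois extensions of degree at most `δ`, `F' = K'(y_1, ..., y_n)`, and the
projective space `P` over `K'` with coordinates `y` and boundary `Σ d_i H_i`, `H_i` hyperplanes over `K'`, `d_i ∈ I`, is a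
crepant cover of the generic fibre in the birational sense: every prime divisor `ν'` of `P` lies over a divisor `ν` over `X`, with
ramification index `ε`, and `1 - ε A`, `A` the log discrepancy of `ν` (`1 - D ν` if `ν` is a divisor on `X`), is the sum of the
`d_i` with `H_i = ν'`.  This class contains all pairs crepant birational to hyperplane arrangements over `K` (`K' = K`,
`F' = F`, `δ = 1`; for instance toric pairs), unions of hyperplanes conjugate over `K`, forms of the projective space, and their
quotients by finite groups with the branch divisor in the boundary.  `J`, `Γ`, `m`
depend only on `n`, `δ` and `I`.  `D_div` is the discriminant, and `- D_mod v` is the mean over the Galois group of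
`K'/K` of the least values `m_(v' ∘ g)(d)` of `Σ_b λ_b v'(g(det_b))` over all decompositions `d = Σ_b λ_b 1_b` into
bases of the arrangement, divided by the ramification index of `v'` over `v`.  (c) holds whenever the trace of `D_mod` on `Z` is
`ℝ`-Cartier, in particular for `ℚ`-factorial `Z`; without this assumption all `1 - D_div v` are positive (nonnegative).

Proof.  On `P` the divisor `K_P + Σ d_i H_i` is a multiple of `Σ d_i div (l_i)`, `l_i` the linear forms; comparing canonical divisors
along `F'/F` and `K'/K` (Riemann-Hurwitz for logarithmic forms) the pull-back of `K_X + D` to `F'` is the pull-back of a divisor of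
`K'` plus `Σ d_i div (l_i)`, up to a principal divisor.  Let `v` be a divisor over `Z`, `v'` a divisor of `K'` over `v` with index `ε`.
(I) A divisor `W` over `X` above `v` and the given `v'` have a common extension `W'` to `F'` (conjugation in the Galois group of `F'/F`;
here the connectedness of the fibres is used), and the log discrepancies of `W` and `W'` are proportional.  For a basis `b` of
the arrangement the form `dlog` of the ratios of the `l_(b j)` is logarithmic along `W'`; averaging over an optimal decomposition of `d`
the log discrepancy of `W'` is `m' (T_v' - m_v'(d))` plus `Σ_b λ_b κ_b`, `κ_b` natural numbers.  (II) Monomial valuations of `F'`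
at optimal rational points of the dual linear program, restricted to `F`, attain the least value.  So `1 - D_div v` is
`(T_v' - m_v'(d))/ε` for all `v'` over `v`; the mean over the Galois group turns the part `T` into a divisor of `K` (norms), and
`D_mod` into a combination, with coefficients in a finite set, of least values over finite sets of norms of general linear
combinations of products of minors.  Such least values are base-point free b-divisors (normalized blow-up).  The DCC of the
coefficients holds since only finitely many `d` have sum `n + 1`, basic decompositions are finite in number, and ramification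
indices in `F'/F` are at most `δ`. -/

set_option autoImplicit false

namespace Pool.Agent.Work.MP_a2680c_ag.Kept.FiniteQuotients

open Pool.Agent.Work.MP_a2680c_ag.HA

universe u

theorem result (n δ : ℕ) (hn : 1 ≤ n) (hδ : 1 ≤ δ) (I : Set ℝ) (hI : I ⊆ Set.Ioc 0 1) (hD : DCC I) :
    ∃ (J Γ : Set ℝ) (m : ℕ), J ⊆ Set.Ioc 0 1 ∧ DCC J ∧ Γ ⊆ Set.Ioc 0 1 ∧ Γ.Finite ∧ 1 ≤ m ∧
      ∀ (κ : Prop) (k K F K' F' : Type u) [Field k] [CharZero k] [Field K] [Field F] [Field K'] [Field F'] [Algebra k K]
        [Algebra k F] [Algebra k K'] [Algebra k F'] [Algebra K F] [Algebra K K'] [Algebra K F'] [Algebra F F'] [Algebra K' F']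
        [IsScalarTower k K F] [IsScalarTower k K K'] [IsScalarTower k F F'] [IsScalarTower k K' F'] [IsScalarTower K F F']
        [IsScalarTower K K' F'] [FiniteDimensional K K'] [IsGalois K K'] [FiniteDimensional F F'] [IsGalois F F']
        (e N : ℕ) (r : Fin e → K) (x : Fin n → F) (y : Fin n → F') (Z : Set (Subalgebra k K)) (X : Set (Subalgebra k F))
        (D : AddValuation F (WithTop ℤ) → ℝ) (L : AddValuation K (WithTop ℤ) → ℝ) (a : Fin N → Fin (n + 1) → K')
        (d : Fin N → ℝ),
        Fib κ I r x Z X D L → Cvb δ I r x y X D a d →
        ∃ Dd Dm : AddValuation K (WithTop ℤ) → ℝ, AdjG κ J Γ m r x Z X D a d Dd Dm :=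
  mainVG.{u} n δ hn hδ I hI hD

end Pool.Agent.Work.MP_a2680c_ag.Kept.FiniteQuotients
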