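import Mathlib
import Pool.Agent.Work.MP_a2680c_ag.HA.MainE

/-! # Weak effective adjunction for fibrations in weighted hyperplane arrangements

Question Q1, in the klt and in the lc version, for all lc-trivial fibrations `(X, D) → Z` (any dimension, coefficients of `D` in
a DCC set `I` of real numbers) whose generic fibre is the projective space `P^n` over the function field `K` of `Z` with
boundary `Σ d_i H_i`, `H_i` hyperplanes over `K`, `d_i ∈ I` (or a crepant modification of it): `J`, `Γ`, `m` depend only on
`n` and `I`.  `D_div` is the discriminant, `- D_mod v` is the least value `m_v(d)` of `Σ_b λ_b v(det_b)` over all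
decompositions `d = Σ_b λ_b 1_b` into bases `b` of the arrangement (the lower hull of its valuated matroid), and `m D_mod` is
generated by products of maximal minors.  (c) holds whenever the trace of `D_mod` on `Z` is `ℝ`-Cartier, in particular for
`ℚ`-factorial `Z`; without this assumption all `1 - D_div v` are positive (nonnegative).

Proof.  `K_X + D` is the pull-back of `L'` plus `Σ d_i div (l_i)`, `l_i` the linear forms.  Let `T_v` be the log discrepancy of `v`
for `K_Z` minus `v(L')`.  (I) For a divisor `W` over `X` above `v` (ramification `μ`) and a basis `b` of the arrangement the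
form `dlog` of the ratios of the `l_(b j)` is logarithmic along `W`, and its expression by `dy_1 ∧ ... ∧ dy_n` contains the minor
`det_b`; averaging over an optimal decomposition of `d` the log discrepancy of `W` is `μ (T_v - m_v(d))` plus
`Σ_b λ_b κ_b` with natural numbers `κ_b`.  (II) For a rational point `Y/q` with `Σ_j Y_(b j) ≤ q v(det_b)` for all bases the
monomial valuation with weights `Y/q` in coordinates of a basis which is extremal for `Y` shows that `q T_v - Σ d_i Y_i` is at
least a positive multiple of a log discrepancy.  By linear programming duality (with rational optimal `Y/q`) the discriminant is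
`1 - (T_v - m_v(d))`.  Basic decompositions are finite in number (only finitely many `d` with coefficients in the DCC set `I` have
sum `n + 1`), which gives the DCC of the coefficients; a simultaneous rational approximation of `d` and of all its basic
decompositions writes `m_v(d)` as a convex combination, with coefficients in a finite set, of least values over finite sets
of products of minors, and such least values are base-point free b-divisors (normalized blow-up). -/

set_option autoImplicit false

namespace Pool.Agent.Work.MP_a2680c_ag.Kept.HyperplaneFibrations

open Pool.Agent.Work.MP_a2680c_ag.HA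

universe u

theorem result (n : ℕ) (hn : 1 ≤ n) (I : Set ℝ) (hI : I ⊆ Set.Ioc 0 1) (hD : DCC I) :
    ∃ (J Γ : Set ℝ) (m : ℕ), J ⊆ Set.Ioc 0 1 ∧ DCC J ∧ Γ ⊆ Set.Ioc 0 1 ∧ Γ.Finite ∧ 1 ≤ m ∧
      ∀ (κ : Prop) (k K F : Type u) [Field k] [CharZero k] [Field K] [Field F] [Algebra k K] [Algebra k F] [Algebra K F]
        [IsScalarTower k K F] (e N : ℕ) (r : Fin e → K) (y : Fin n → F) (Z : Set (Subalgebra k K))
        (X : Set (Subalgebra k F)) (D : AddValuation F (WithTop ℤ) → ℝ) (L : AddValuation K (WithTop ℤ) → ℝ)
        (a : Fin N → Fin (n + 1) → K) (d : Fin N → ℝ),
        Fib κ I r y Z X D L → Arr I y X D a d →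
        ∃ Dd Dm : AddValuation K (WithTop ℤ) → ℝ, AdjE κ J Γ m r y Z X D a d Dd Dm :=
  mainHE.{u} n hn I hI hD

end Pool.Agent.Work.MP_a2680c_ag.Kept.HyperplaneFibrations
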