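import Mathlib
import Pool.Agent.Work.MP_a2680c_ag.HA.MainE

/-! # Explicit constants for fibrations in rational hyperplane arrangements

Question Q1 with explicit constants: for lc-trivial fibrations `(X, D) → Z` whose generic fibre is `P^n` with
boundary `Σ d_i H_i`, `H_i` hyperplanes over the function field of `Z` (or a crepant modification of it), and all coefficients in
`(1/M) ℤ ∩ (0, 1]`, one may take `m = M`, `Γ = {1}` and `J = {1 - (1 - j/M)/μ}`: the divisor `M D_mod` is base-point free, and
`- M D_mod v` is the least value of `Σ_t v(det_(B t))` over the `M`-tuples of bases `B 0, ..., B (M-1)` with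
`Σ_t 1_(B t) = M d`.  Klt and lc versions; `n` arbitrary, no dependence on `n`.

Proof.  In the notation of `HyperplaneFibrations`, let `(q, Y)` be an optimal rational dual solution for `v`.  In an extension of
`(K, v)` of ramification index `q` the rows `a_i` are divided by `T^(Y_i)`, `T` of value `1`; then all maximal minors have value
`≥ 0`, and the tight bases are those whose minor does not vanish in the residue field.  The optimal decomposition of `M d` lives
on the bases of this residue arrangement, so by the matroid union theorem for linear matroids `M d` is the sum of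
`M` bases of it, all of them tight. -/

set_option autoImplicit false

namespace Pool.Agent.Work.MP_a2680c_ag.Kept.IntegralHyperplanes

open Pool.Agent.Work.MP_a2680c_ag.HA

universe u

theorem result (n M : ℕ) (hn : 1 ≤ n) (hM : 1 ≤ M) (κ : Prop) (k K F : Type u) [Field k] [CharZero k] [Field K] [Field F]
    [Algebra k K] [Algebra k F] [Algebra K F] [IsScalarTower k K F] (e N : ℕ) (r : Fin e → K) (y : Fin n → F)
    (Z : Set (Subalgebra k K)) (X : Set (Subalgebra k F)) (D : AddValuation F (WithTop ℤ) → ℝ)
    (L : AddValuation K (WithTop ℤ) → ℝ) (a : Fin N → Fin (n + 1) → K) (d : Fin N → ℝ)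
    (hF : Fib κ (IM M) r y Z X D L) (hA : Arr (IM M) y X D a d) :
    ∃ Dd Dm : AddValuation K (WithTop ℤ) → ℝ, AdjM κ M r y Z X D a d Dd Dm :=
  mainHM.{u} n M hn hM κ k K F e N r y Z X D L a d hF hA

end Pool.Agent.Work.MP_a2680c_ag.Kept.IntegralHyperplanes
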