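import Mathlib
import Pool.Agent.Work.MP_a2680c_ag.HA.MainV

/-! # Explicit constants for finite quotients and Galois forms of rational hyperplane arrangements

Question Q1 with explicit constants, in the situation of `FiniteQuotients` with all coefficients in `(1/M) ℤ ∩ (0, 1]`: `K'/K`,
`F'/F` finite Galois of degree at most `δ`, `F' = K'(y)`, crepant cover (in the birational sense) of the generic fibre by `P^n`
over `K'` with boundary `Σ d_i H_i`.  One may take `J = {1 - (1 - j/(M η))/μ : 0 ≤ j ≤ M η, 1 ≤ η ≤ δ, μ ≥ 1}`, `Γ = {1}` and `m = M γ`,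
`γ = [K' : K]`: the divisor `M γ D_mod` is base-point free, and `- M γ ε D_mod v` is the sum over the Galois group of
`K'/K` of the least values of `Σ_t v'(g(det_(B t)))` over the `M`-tuples of bases `B 0, ..., B (M-1)` with `Σ_t 1_(B t) = M d`, for
every divisorial `v'` over `v` of ramification index `ε`.  For hyperplanes over `K` (`K' = K`, `F' = F`, `δ = 1`):
`J = {1 - (1 - j/M)/μ}`, `m = M`.  Klt and lc versions; `n` arbitrary, no dependence on `n`.

Proof.  In the notation of `FiniteQuotients`, let `(q, Y)` be an optimal rational dual solution for `v'`.  In an extension of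
`(K', v')` of ramification index `q` the rows `a_i` are divided by `T^(Y_i)`, `T` of value `1`; then all maximal minors have value
`≥ 0`, and the tight bases are those whose minor does not vanish in the residue field.  The optimal decomposition of `M d` lives
on the bases of this residue arrangement, so by the matroid union theorem for linear matroids `M d` is the sum of
`M` bases of it, all of them tight.  Base-point freeness by norms of general combinations of the products of `M` minors. -/

set_option autoImplicit false

namespace Pool.Agent.Work.MP_a2680c_ag.Kept.IntegralQuotients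

open Pool.Agent.Work.MP_a2680c_ag.HA

universe u

theorem result (n M δ : ℕ) (hn : 1 ≤ n) (hM : 1 ≤ M) (hδ : 1 ≤ δ) (κ : Prop) (k K F K' F' : Type u) [Field k] [CharZero k]
    [Field K] [Field F] [Field K'] [Field F'] [Algebra k K] [Algebra k F] [Algebra k K'] [Algebra k F'] [Algebra K F]
    [Algebra K K'] [Algebra K F'] [Algebra F F'] [Algebra K' F'] [IsScalarTower k K F] [IsScalarTower k K K']
    [IsScalarTower k F F'] [IsScalarTower k K' F'] [IsScalarTower K F F'] [IsScalarTower K K' F'] [FiniteDimensional K K']
    [IsGalois K K'] [FiniteDimensional F F'] [IsGalois F F'] (e N : ℕ) (r : Fin e → K) (x : Fin n → F) (y : Fin n → F')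
    (Z : Set (Subalgebra k K)) (X : Set (Subalgebra k F)) (D : AddValuation F (WithTop ℤ) → ℝ)
    (L : AddValuation K (WithTop ℤ) → ℝ) (a : Fin N → Fin (n + 1) → K') (d : Fin N → ℝ)
    (hF : Fib κ (IM M) r x Z X D L) (hC : Cvb δ (IM M) r x y X D a d) :
    ∃ Dd Dm : AddValuation K (WithTop ℤ) → ℝ, AdjH κ M δ r x Z X D a d Dd Dm :=
  mainVH.{u} n M δ hn hM hδ κ k K F K' F' e N r x y Z X D L a d hF hC

end Pool.Agent.Work.MP_a2680c_ag.Kept.IntegralQuotients
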